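import Pool.Agent.LeoG.AlgStmts

/-!
MUM: local cube roots of unity in a quadratic extension lie below.
-/

set_option autoImplicit false

open Module
open Pool.Agent.Helper85_Leo Pool.Agent.Leo3 Pool.Agent.LeoK

namespace Pool.Agent.LeoG.H76

/-- Every element of a quadratic extension is `a + b r`. -/
theorem exists_ab {k K : Type} [Field k] [Field K] [Algebra k K] (h2 : finrank k K = 2) (r : K)
    (hr : ∀ x : k, algebraMap k K x ≠ r) (x : K) :
    ∃ a b : k, x = algebraMap k K a + algebraMap k K b * r := by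
  have hfin : FiniteDimensional k K := FiniteDimensional.of_finrank_pos (by rw [h2]; norm_num)
  have hli : LinearIndependent k ![(1 : K), r] := by
    rw [LinearIndependent.pair_iff]
    intro s t hst
    have ht : t = 0 := by
      by_contra ht
      apply hr (-(s / t))
      have ht' : algebraMap k K t ≠ 0 := by
        rwa [Ne, map_eq_zero]
      rw [Algebra.smul_def, Algebra.smul_def, mul_one] at hst
      rw [map_neg, map_div₀]
      field_simp
      linear_combination -hst
    refine ⟨?_, ht⟩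
    rw [ht, zero_smul, add_zero, Algebra.smul_def, mul_one, map_eq_zero] at hst
    exact hst
  have hsp : Submodule.span k (Set.range ![(1 : K), r]) = ⊤ :=
    hli.span_eq_top_of_card_eq_finrank (by rw [h2]; rfl)
  have hx : x ∈ Submodule.span k (Set.range ![(1 : K), r]) := by rw [hsp]; trivial
  rw [Matrix.range_cons, Matrix.range_cons, Matrix.range_empty, Set.union_empty,
    Set.singleton_union, Submodule.mem_span_pair] at hx
  obtain ⟨a, b, e⟩ := hx
  exact ⟨a, b, by rw [← e, Algebra.smul_def, Algebra.smul_def, mul_one]⟩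

theorem mum : MumStmt := by
  intro k K _ _ _ _ m r h2 hr hns h3 φ t hIt ht3 ht1
  have hrk : ∀ x : k, algebraMap k K x ≠ r := by
    intro x hx
    apply hns x
    apply (algebraMap k K).injective
    rw [map_pow, hx, hr]
  obtain ⟨ψ, hψ⟩ : ∃ ψ : k →+* Om, ψ = φ.comp (algebraMap k K) := ⟨_, rfl⟩
  rw [← hψ]
  have hψx : ∀ x : k, φ (algebraMap k K x) = ψ x := fun x => by rw [hψ]; rfl
  -- the image of r
  have hR : φ r ^ 2 = 3 * ψ m := by
    rw [← map_pow, hr, hψx, map_mul, map_ofNat]
  -- primitive cube root of unity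
  have hq : t ^ 2 + t + 1 = 0 := by
    have : (t - 1) * (t ^ 2 + t + 1) = 0 := by linear_combination ht3
    rcases mul_eq_zero.mp this with h | h
    · exact absurd (sub_eq_zero.mp h) ht1
    · exact h
  obtain ⟨w, hw⟩ : ∃ w : Om, w = 2 * t + 1 := ⟨_, rfl⟩
  have hw2 : w ^ 2 = -3 := by rw [hw]; linear_combination 4 * hq
  have hw0 : w ≠ 0 := by
    intro h
    rw [h] at hw2
    have : (3 : Om) = 0 := by linear_combination hw2
    exact (by norm_num : (3 : Om) ≠ 0) this
  -- y = φ r / w
  have hy2 : (φ r / w) ^ 2 = -ψ m := by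
    rw [div_pow, hR, hw2]
    have h3' : (3 : Om) ≠ 0 := by norm_num
    field_simp
  -- automorphisms over k which fix r fix K
  have hfix : ∀ ρ : Om ≃ₐ[ℚ_[3]] Om, FixF ψ ρ → ρ (φ r) = φ r → ρ t = t := by
    intro ρ hρ hρr
    apply hIt ρ
    intro x
    obtain ⟨a, b, rfl⟩ := exists_ab h2 r hrk x
    rw [map_add, map_mul, hψx, hψx, map_add, map_mul, hρ a, hρ b, hρr]
  have hpm : ∀ ρ : Om ≃ₐ[ℚ_[3]] Om, FixF ψ ρ → ρ (φ r) = φ r ∨ ρ (φ r) = -φ r := by
    intro ρ hρ
    apply sq_eq_sq_iff_eq_or_eq_neg.mp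
    rw [← map_pow, hR, map_mul, hρ m, map_ofNat]
  have htt : ∀ ρ : Om ≃ₐ[ℚ_[3]] Om, ρ t = t ∨ ρ t = t ^ 2 := by
    intro ρ
    have e : (ρ t) ^ 2 + ρ t + 1 = 0 := by
      have := congrArg ρ hq
      simpa only [map_add, map_pow, map_one, map_zero] using this
    have : (ρ t - t) * (ρ t - t ^ 2) = 0 := by
      linear_combination e - (ρ t) * hq + ht3
    rcases mul_eq_zero.mp this with h | h
    · exact Or.inl (sub_eq_zero.mp h)
    · exact Or.inr (sub_eq_zero.mp h)
  have hne : t ≠ t ^ 2 := by
    intro h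
    apply ht1
    have : t * (t - 1) = 0 := by linear_combination -h
    rcases mul_eq_zero.mp this with h' | h'
    · rw [h'] at ht3; norm_num at ht3
    · exact sub_eq_zero.mp h'
  -- part 1
  have p1 : InLoc ψ t := by
    intro ρ₁ hρ₁
    rcases htt ρ₁ with h | h
    · exact h
    exfalso
    have hr1 : ρ₁ (φ r) = -φ r := by
      rcases hpm ρ₁ hρ₁ with h' | h'
      · exact absurd ((hfix ρ₁ hρ₁ h').symm.trans h) hne
      · exact h'
    apply h3 ψ (φ r / w) ?_ hy2
    intro ρ hρ
    rcases hpm ρ hρ with h' | h'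
    · have := hfix ρ hρ h'
      rw [map_div₀, h', hw, map_add, map_mul, this, map_one, map_ofNat]
    · have hc : (ρ * ρ₁) t = t := by
        apply hfix
        · intro x
          rw [AlgEquiv.mul_apply, hρ₁ x, hρ x]
        · rw [AlgEquiv.mul_apply, hr1, map_neg, h', neg_neg]
      rw [AlgEquiv.mul_apply, h, map_pow] at hc
      have hρt : ρ t = t ^ 2 := by
        rcases htt ρ with h'' | h''
        · rw [h''] at hc
          exact absurd hc.symm hne
        · exact h''
      have hρw : ρ w = -w := by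
        rw [hw, map_add, map_mul, hρt, map_one, map_ofNat]
        linear_combination 2 * hq
      rw [map_div₀, h', hρw, neg_div_neg_eq]
  refine ⟨p1, ?_⟩
  by_contra hcon
  push Not at hcon
  apply h3 ψ (φ r / w) ?_ hy2
  intro ρ hρ
  have hr' : ρ (φ r) = φ r := by
    rcases hpm ρ hρ with h | h
    · exact h
    · exact absurd h (hcon ρ hρ)
  rw [map_div₀, hr', hw, map_add, map_mul, p1 ρ hρ, map_one, map_ofNat]

end Pool.Agent.LeoG.H76
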